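import Pool.Agent.P.MP_08bb88_co.FcMain

namespace Pool.Agent.Results.MP_08bb88_co.FracLog

/-- Fork-free graphs have fractional chromatic number `O(ω² / log ω)`, in the dual form: for all
weights some stable set carries a `log ω / (C ω²)` share of the total weight. -/
theorem result : ∃ C : ℝ, ∀ (V : Type) [Fintype V] (G : SimpleGraph V),
    (¬ ∃ a b c d e : V, a ≠ c ∧ a ≠ d ∧ a ≠ e ∧ b ≠ d ∧ b ≠ e ∧ d ≠ e ∧
      G.Adj a b ∧ G.Adj b c ∧ G.Adj c d ∧ G.Adj c e ∧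
      ¬ G.Adj a c ∧ ¬ G.Adj a d ∧ ¬ G.Adj a e ∧ ¬ G.Adj b d ∧ ¬ G.Adj b e ∧ ¬ G.Adj d e) →
    ∀ w : V → ℝ, (∀ v, 0 ≤ w v) → ∃ I : Finset V, G.IsIndepSet (I : Set V) ∧
      (∑ v, w v) * Real.log G.cliqueNum ≤ C * (G.cliqueNum : ℝ) ^ 2 * ∑ v ∈ I, w v := by
  refine ⟨2 ^ 150, fun V _ G hG => Pool.Agent.P.MP_08bb88_co.frac_log V G fun c x y p q => ?_⟩
  by_contra hc
  push Not at hc
  obtain ⟨h1, h2, h3, h4, h5, h6, h7, h8, h9, h10, h11, h12, h13, h14⟩ := hc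
  exact hG ⟨q, p, c, x, y, h14, fun e => h8 (e ▸ h1), fun e => h8 (e ▸ h2), h12.symm, h13.symm,
    h11, h4.symm, h3.symm, h1, h2, fun e => h8 e.symm, fun e => h9 e.symm, fun e => h10 e.symm,
    fun e => h6 e.symm, fun e => h7 e.symm, h5⟩

end Pool.Agent.Results.MP_08bb88_co.FracLog
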